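import Mathlib

set_option autoImplicit false

namespace Pool.Agent.Results.MP_a69800_lc.Classes

open Set

/-- The left stabiliser of `C`: all words `u` with `u C ⊆ C`. For `C` nonempty this is the maximal
left star of `C`. -/
def stab {α : Type} (C : Set (List α)) : Set (List α) := {u | ∀ x ∈ C, u ++ x ∈ C}

/-- One step of the procedure: `C` is replaced by its minimal tail with respect to its maximal left
star, i.e. by `C \ (B \ 1) C` with `B = stab C`. -/
def step {α : Type} (C : Set (List α)) : Set (List α) :=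
  C \ {w | ∃ p q : List α, p ≠ [] ∧ p ∈ stab C ∧ q ∈ C ∧ w = p ++ q}

/-- The procedure started at `A` has stopped after `n` steps: the maximal left star of `C_n` is `1`. -/
def StopsAt {α : Type} (A : Set (List α)) (n : ℕ) : Prop :=
  ∀ u : List α, u ∈ stab (step^[n] A) → u = []

/-- `s` repeated `n` times. -/
def wpow {α : Type} (s : List α) : ℕ → List α
  | 0 => []
  | n + 1 => s ++ wpow s n

/-- The right quotients `A c⁻¹ = {u | u c ∈ A}` of `A`, `c` running over all words. -/
def rightQuotients {α : Type} (A : Set (List α)) : Set (Set (List α)) :=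
  Set.range (fun c : List α => {u | u ++ c ∈ A})

section basic

variable {α : Type}

theorem step_subset (C : Set (List α)) : step C ⊆ C := fun _ h => h.1

theorem stab_append {C : Set (List α)} {u v : List α} (hu : u ∈ stab C) (hv : v ∈ stab C) :
    u ++ v ∈ stab C := by
  intro x hx
  rw [List.append_assoc]
  exact hu _ (hv _ hx)

theorem stab_nil (C : Set (List α)) : ([] : List α) ∈ stab C := fun x hx => by simpa using hx

theorem stab_wpow {C : Set (List α)} {u : List α} (hu : u ∈ stab C) (n : ℕ) : wpow u n ∈ stab C := by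
  induction n with
  | zero => exact stab_nil C
  | succ n ih => exact stab_append hu ih

theorem wpow_add (u : List α) (m n : ℕ) : wpow u (m + n) = wpow u m ++ wpow u n := by
  induction m with
  | zero => simp [wpow]
  | succ m ih =>
      have : m + 1 + n = (m + n) + 1 := by omega
      rw [this]
      simp [wpow, ih]

theorem wpow_length (u : List α) (n : ℕ) : (wpow u n).length = n * u.length := by
  induction n with
  | zero => simp [wpow]
  | succ n ih => simp [wpow, ih]; ring

theorem wpow_ne_nil {u : List α} (hu : u ≠ []) {n : ℕ} (hn : 1 ≤ n) : wpow u n ≠ [] := by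
  intro h
  have h1 := wpow_length u n
  rw [h] at h1
  simp at h1
  rcases h1 with h1 | h1
  · omega
  · exact hu h1

theorem step_nonempty {C : Set (List α)} (hC : C.Nonempty) : (step C).Nonempty := by
  classical
  obtain ⟨w, hw, hmin⟩ : ∃ w ∈ C, ∀ v ∈ C, w.length ≤ v.length := by
    have h := WellFounded.has_min (measure (List.length : List α → ℕ)).wf C hC
    obtain ⟨w, hw, h2⟩ := h
    refine ⟨w, hw, fun v hv => ?_⟩
    have := h2 v hv
    simpa [measure, invImage, InvImage, WellFoundedRelation.rel, not_lt] using this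
  refine ⟨w, hw, ?_⟩
  rintro ⟨p, q, hp, -, hq, rfl⟩
  have h1 := hmin q hq
  have h2 : 0 < p.length := List.length_pos_iff.mpr hp
  rw [List.length_append] at h1
  omega

theorem iter_nonempty {C : Set (List α)} (hC : C.Nonempty) (n : ℕ) : (step^[n] C).Nonempty := by
  induction n with
  | zero => exact hC
  | succ n ih => rw [Function.iterate_succ_apply']; exact step_nonempty ih

theorem decomp (C : Set (List α)) : ∀ (n : ℕ) (w : List α), w.length ≤ n → w ∈ C →
    ∃ m c, m ∈ stab C ∧ c ∈ step C ∧ w = m ++ c := by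
  intro n
  induction n with
  | zero =>
      intro w hw hwC
      refine ⟨[], w, stab_nil C, ⟨hwC, ?_⟩, rfl⟩
      rintro ⟨p, q, hp, -, -, rfl⟩
      have h2 : 0 < p.length := List.length_pos_iff.mpr hp
      simp at hw
      exact hp hw.1
  | succ n ih =>
      intro w hw hwC
      by_cases h : w ∈ step C
      · exact ⟨[], w, stab_nil C, h, rfl⟩
      · have h2 : w ∈ {w | ∃ p q : List α, p ≠ [] ∧ p ∈ stab C ∧ q ∈ C ∧ w = p ++ q} := by
          by_contra h3
          exact h ⟨hwC, h3⟩
        obtain ⟨p, q, hp, hps, hq, rfl⟩ := h2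
        have h3 : 0 < p.length := List.length_pos_iff.mpr hp
        obtain ⟨m, c, hm, hc, rfl⟩ := ih q (by simp at hw; omega) hq
        exact ⟨p ++ m, c, stab_append hps hm, hc, by simp⟩

/-- Uniqueness: `u^i x = u^j x'` with `x, x'` in the tail forces `i = j`. -/
theorem uniq {C : Set (List α)} {u : List α} (hu : u ∈ stab C) (hne : u ≠ []) {x x' : List α}
    (hx : x ∈ step C) (hx' : x' ∈ step C) {i j : ℕ} (hij : i ≤ j)
    (h : wpow u i ++ x = wpow u j ++ x') : i = j ∧ x = x' := by
  obtain ⟨k, rfl⟩ := Nat.exists_eq_add_of_le hij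
  rw [wpow_add, List.append_assoc] at h
  have h1 := List.append_cancel_left h
  rcases Nat.eq_zero_or_pos k with hk | hk
  · subst hk
    exact ⟨rfl, by simpa [wpow] using h1⟩
  · exfalso
    exact hx.2 ⟨wpow u k, x', wpow_ne_nil hne hk, stab_wpow hu k, hx'.1, h1⟩

end basic

section growth

variable {α : Type} [Fintype α]

theorem finite_le (n : ℕ) (C : Set (List α)) : {w ∈ C | w.length ≤ n}.Finite :=
  (List.finite_length_le α n).subset (fun _ h => h.2)

theorem growth_lower : ∀ (m : ℕ) (C : Set (List α)), C.Nonempty →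
    (∀ n < m, ∃ u : List α, u ≠ [] ∧ u ∈ stab (step^[n] C)) →
    ∃ L b : ℕ, ∀ t : ℕ, (t + 1) ^ m ≤ {w ∈ C | w.length ≤ t * L + b}.ncard := by
  intro m
  induction m with
  | zero =>
      intro C hC _
      obtain ⟨c, hc⟩ := hC
      refine ⟨0, c.length, fun t => ?_⟩
      have : 0 < {w ∈ C | w.length ≤ t * 0 + c.length}.ncard := by
        rw [Set.ncard_pos (finite_le _ _)]
        exact ⟨c, hc, by simp⟩
      rw [pow_zero]
      exact this
  | succ m ih =>
      intro C hC h
      obtain ⟨u, hu, hus⟩ := h 0 (Nat.succ_pos m)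
      simp only [Function.iterate_zero, id] at hus
      obtain ⟨L, b, hLb⟩ := ih (step C) (step_nonempty hC) (by
        intro n hn
        obtain ⟨v, hv, hvs⟩ := h (n + 1) (by omega)
        exact ⟨v, hv, by simpa [Function.iterate_succ_apply] using hvs⟩)
      refine ⟨u.length + L, b, fun t => ?_⟩
      set S : Set (List α) := {w ∈ step C | w.length ≤ t * L + b} with hS
      have hSf : S.Finite := finite_le _ _
      have hinj : Set.InjOn (fun p : ℕ × List α => wpow u p.1 ++ p.2)
          ((Set.Iic t) ×ˢ S) := by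
        rintro ⟨i, x⟩ ⟨-, hx⟩ ⟨j, x'⟩ ⟨-, hx'⟩ he
        simp only at he hx hx'
        rcases le_total i j with hij | hij
        · obtain ⟨h1, h2⟩ := uniq hus hu hx.1 hx'.1 hij he
          simp [h1, h2]
        · obtain ⟨h1, h2⟩ := uniq hus hu hx'.1 hx.1 hij he.symm
          simp [h1, h2]
      have himg : (fun p : ℕ × List α => wpow u p.1 ++ p.2) '' ((Set.Iic t) ×ˢ S) ⊆
          {w ∈ C | w.length ≤ t * (u.length + L) + b} := by
        rintro w ⟨⟨i, x⟩, ⟨hi, hx⟩, rfl⟩
        simp only [Set.mem_Iic] at hi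
        refine ⟨stab_wpow hus i x hx.1.1, ?_⟩
        have h1 := hx.2
        simp only [List.length_append, wpow_length]
        have h2 : i * u.length ≤ t * u.length := Nat.mul_le_mul_right _ hi
        simp only at h1
        nlinarith
      have h1 := Set.ncard_le_ncard himg (finite_le _ _)
      rw [hinj.ncard_image, Set.ncard_prod] at h1
      have h2 : (Set.Iic t).ncard = t + 1 := by
        rw [Set.ncard_eq_toFinset_card']
        simp
      rw [h2] at h1
      calc (t + 1) ^ (m + 1) = (t + 1) * (t + 1) ^ m := by ring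
        _ ≤ (t + 1) * S.ncard := Nat.mul_le_mul_left _ (hLb t)
        _ ≤ _ := h1

theorem part_growth (A : Set (List α)) (hA : A.Nonempty) (K d : ℕ)
    (hK : ∀ n : ℕ, {w ∈ A | w.length ≤ n}.ncard ≤ K * (n + 1) ^ d) : ∃ n ≤ d, StopsAt A n := by
  by_contra hcon
  push Not at hcon
  have h : ∀ n < d + 1, ∃ u : List α, u ≠ [] ∧ u ∈ stab (step^[n] A) := by
    intro n hn
    have h1 := hcon n (by omega)
    unfold StopsAt at h1
    push Not at h1
    obtain ⟨u, hu1, hu2⟩ := h1
    exact ⟨u, hu2, hu1⟩
  obtain ⟨L, b, hLb⟩ := growth_lower (d + 1) A hA h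
  set M := K * (L + b + 1) ^ d with hM
  have h1 := (hLb M).trans (hK (M * L + b))
  have h2 : (M * L + b + 1) ^ d ≤ ((M + 1) * (L + b + 1)) ^ d := by
    apply Nat.pow_le_pow_left
    nlinarith
  have h3 : (M + 1) ^ (d + 1) ≤ M * (M + 1) ^ d := by
    calc (M + 1) ^ (d + 1) ≤ K * (M * L + b + 1) ^ d := h1
      _ ≤ K * ((M + 1) * (L + b + 1)) ^ d := Nat.mul_le_mul_left _ h2
      _ = M * (M + 1) ^ d := by rw [hM, mul_pow]; ring
  have h4 : 0 < (M + 1) ^ d := by positivity
  have h5 : (M + 1) ^ (d + 1) = M * (M + 1) ^ d + (M + 1) ^ d := by ring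
  omega

end growth

section central

variable {α : Type}

theorem part_central (A : Set (List α)) (hA : A.Nonempty)
    (h : ∀ s : List α, ∃ N, 1 ≤ N ∧ ∀ y z : List α,
      (wpow s N ++ (y ++ z) ∈ A ↔ y ++ (wpow s N ++ z) ∈ A)) : ∃ n ≤ 1, StopsAt A n := by
  refine ⟨1, le_refl 1, ?_⟩
  intro s hs
  simp only [Function.iterate_one] at hs
  by_contra hne
  obtain ⟨N, hN, hcomm⟩ := h s
  have ht : wpow s N ∈ stab (step A) := stab_wpow hs N
  have htA : wpow s N ∈ stab A := by
    intro w hw
    obtain ⟨m, c, hm, hc, rfl⟩ := decomp A w.length w le_rfl hw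
    rw [hcomm]
    exact hm _ (ht c hc).1
  obtain ⟨c, hc⟩ := step_nonempty hA
  exact (ht c hc).2 ⟨wpow s N, c, wpow_ne_nil hne hN, htA, hc.1, rfl⟩

end central

section suffix

variable {α : Type}

/-- words mapping `C_n` into `A` -/
def D (A : Set (List α)) (n : ℕ) : Set (List α) := {t | ∀ c ∈ step^[n] A, t ++ c ∈ A}

/-- the sets `B_n` with `C_n = A ∩ B_n` -/
def B (A : Set (List α)) : ℕ → Set (List α)
  | 0 => Set.univ
  | n + 1 => {w | w ∈ B A n ∧ ∀ t v : List α, w = t ++ v → t ≠ [] → t ∈ D A n → v ∉ B A n}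

/-- `A` is suffix-convex: a suffix of a word of `A` which is longer than some suffix lying in `A`
lies in `A`. Suffix-closed languages (nonempty), left ideals and suffix-free languages are of this
kind. -/
def SuffixConvex (A : Set (List α)) : Prop :=
  ∀ u w v : List α, v ∈ A → u ++ (w ++ v) ∈ A → w ++ v ∈ A

theorem D_suffix {A : Set (List α)} (hs : SuffixConvex A) {n : ℕ}
    {s p : List α} (h : s ++ p ∈ D A n) : p ∈ D A n := by
  intro c hc
  have h1 := h c hc
  rw [List.append_assoc] at h1
  have hcA : c ∈ A := by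
    have : ∀ n, step^[n] A ⊆ A := by
      intro n
      induction n with
      | zero => exact fun _ h => h
      | succ n ih => rw [Function.iterate_succ_apply']; exact (step_subset _).trans ih
    exact this n hc
  exact hs _ _ _ hcA h1

theorem B_props {A : Set (List α)} (hs : SuffixConvex A) (n : ℕ) :
    (∀ s c, s ∈ B A n → c ∈ B A n → s ++ c ∈ B A n) ∧
    (∀ v c, c ∈ B A n → v ++ c ∈ B A n → v ∈ B A n) := by
  induction n with
  | zero => exact ⟨fun _ _ _ _ => trivial, fun _ _ _ _ => trivial⟩
  | succ n ih =>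
      obtain ⟨ha, hb⟩ := ih
      constructor
      · rintro s c ⟨hs1, hs2⟩ ⟨hc1, hc2⟩
        refine ⟨ha s c hs1 hc1, ?_⟩
        intro t v he ht htD hv
        rcases List.append_eq_append_iff.mp he with ⟨p, h1, h2⟩ | ⟨v', h1, h2⟩
        · -- t = s ++ p, c = p ++ v
          rcases eq_or_ne p [] with hp | hp
          · subst hp
            simp at h1 h2
            subst h1 h2
            exact hs2 t [] (by simp) ht htD (by
              have := hb [] c hc1 (by simpa using hc1)
              exact this)
          · subst h1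
            exact hc2 p v h2 hp (D_suffix hs htD) hv
        · -- s = t ++ v', v = v' ++ c
          subst h2
          exact hs2 t v' h1 ht htD (hb v' c hc1 hv)
      · rintro v c ⟨hc1, hc2⟩ ⟨hv1, hv2⟩
        refine ⟨hb v c hc1 hv1, ?_⟩
        intro t v' he ht htD hv'
        subst he
        exact hv2 t (v' ++ c) (by simp) ht htD (ha v' c hv' hc1)

theorem nil_mem_B {A : Set (List α)} (n : ℕ) : ([] : List α) ∈ B A n := by
  induction n with
  | zero => trivial
  | succ n ih =>
      refine ⟨ih, ?_⟩
      intro t v he ht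
      exact absurd (List.append_eq_nil_iff.mp he.symm).1 ht

/-- words of `A` without proper suffix in `A` -/
def Z (A : Set (List α)) : Set (List α) := {z | z ∈ A ∧ ∀ p q : List α, z = p ++ q → p ≠ [] → q ∉ A}

theorem exists_dec {A : Set (List α)} : ∀ (n : ℕ) (w : List α), w.length ≤ n → w ∈ A →
    ∃ y z, z ∈ Z A ∧ w = y ++ z := by
  intro n
  induction n with
  | zero =>
      intro w hw hwA
      refine ⟨[], w, ⟨hwA, ?_⟩, rfl⟩
      rintro p q rfl hp
      rw [List.length_append] at hw
      have h2 : 0 < p.length := List.length_pos_iff.mpr hp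
      omega
  | succ n ih =>
      intro w hw hwA
      by_cases h : w ∈ Z A
      · exact ⟨[], w, h, rfl⟩
      · have h' : ∃ p q : List α, w = p ++ q ∧ p ≠ [] ∧ q ∈ A := by
          by_contra hcon
          push Not at hcon
          exact h ⟨hwA, fun p q h1 h2 => hcon p q h1 h2⟩
        obtain ⟨p, q, rfl, hp, hq⟩ := h'
        have h2 : 0 < p.length := List.length_pos_iff.mpr hp
        rw [List.length_append] at hw
        obtain ⟨y, z, hz, rfl⟩ := ih q (by omega) hq
        exact ⟨p ++ y, z, hz, by simp⟩

theorem unique_dec {A : Set (List α)} {y y' z z' : List α} (hz : z ∈ Z A) (hz' : z' ∈ Z A)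
    (h : y ++ z = y' ++ z') : y = y' ∧ z = z' := by
  rcases List.append_eq_append_iff.mp h with ⟨p, h1, h2⟩ | ⟨p, h1, h2⟩
  · rcases eq_or_ne p [] with hp | hp
    · subst hp
      simp at h1 h2
      exact ⟨h1.symm, h2⟩
    · exact absurd hz'.1 (hz.2 p z' h2 hp)
  · rcases eq_or_ne p [] with hp | hp
    · subst hp
      simp at h1 h2
      exact ⟨h1, h2.symm⟩
    · exact absurd hz.1 (hz'.2 p z h2 hp)

theorem C_eq {A : Set (List α)} (hA : A.Nonempty) (hs : SuffixConvex A)
    (n : ℕ) : step^[n] A = {w | w ∈ A ∧ ∃ y z, z ∈ Z A ∧ w = y ++ z ∧ y ∈ B A n} ∧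
      stab (step^[n] A) = B A n ∩ D A n := by
  induction n with
  | zero =>
      refine ⟨?_, ?_⟩
      · ext w
        constructor
        · intro hw
          obtain ⟨y, z, hz, rfl⟩ := exists_dec w.length w le_rfl hw
          exact ⟨hw, y, z, hz, rfl, trivial⟩
        · exact fun h => h.1
      · ext s
        simp [B, D, stab]
  | succ n ih =>
      obtain ⟨ih1, ih2⟩ := ih
      have hC : step^[n + 1] A = {w | w ∈ A ∧ ∃ y z, z ∈ Z A ∧ w = y ++ z ∧ y ∈ B A (n + 1)} := by
        rw [Function.iterate_succ_apply']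
        ext w
        constructor
        · rintro ⟨hw1, hw2⟩
          have hw1' := hw1
          rw [ih1] at hw1'
          obtain ⟨hwA, y, z, hz, rfl, hy⟩ := hw1'
          refine ⟨hwA, y, z, hz, rfl, hy, ?_⟩
          rintro t v rfl ht htD hv
          have hvA : v ++ z ∈ A := hs t v z hz.1 (by simpa using hwA)
          refine hw2 ⟨t, v ++ z, ht, ?_, ?_, by simp⟩
          · rw [ih2]
            exact ⟨(B_props hs n).2 t v hv hy, htD⟩
          · rw [ih1]
            exact ⟨hvA, v, z, hz, rfl, hv⟩
        · rintro ⟨hwA, y, z, hz, rfl, hwB, hw2⟩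
          refine ⟨?_, ?_⟩
          · rw [ih1]; exact ⟨hwA, y, z, hz, rfl, hwB⟩
          · rintro ⟨p, q, hp, hps, hq, he⟩
            rw [ih2] at hps
            rw [ih1] at hq
            obtain ⟨hqA, y', z', hz', rfl, hy'⟩ := hq
            rw [← List.append_assoc] at he
            obtain ⟨h1, -⟩ := unique_dec hz hz' he
            exact hw2 p y' h1 hp hps.2 hy'
      refine ⟨hC, ?_⟩
      ext s
      constructor
      · intro h
        refine ⟨?_, ?_⟩
        · obtain ⟨c, hc⟩ := iter_nonempty hA (n + 1)
          have h1 := h c hc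
          rw [hC] at h1 hc
          obtain ⟨hcA, y, z, hz, rfl, hy⟩ := hc
          obtain ⟨-, y', z', hz', he, hy'⟩ := h1
          rw [← List.append_assoc] at he
          obtain ⟨h2, -⟩ := unique_dec hz hz' he
          rw [← h2] at hy'
          exact (B_props hs (n + 1)).2 s y hy hy'
        · intro c' hc'
          have h2 := h c' hc'
          rw [hC] at h2
          exact h2.1
      · rintro ⟨h1, h2⟩ c hc
        have hcD := h2 c hc
        rw [hC] at hc ⊢
        obtain ⟨hcA, y, z, hz, rfl, hy⟩ := hc
        exact ⟨hcD, s ++ y, z, hz, by simp, (B_props hs (n + 1)).1 s y h1 hy⟩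

/-- right quotients by words of `C_n` -/
def F (A : Set (List α)) (n : ℕ) : Set (Set (List α)) :=
  (fun c : List α => {u | u ++ c ∈ A}) '' (step^[n] A)

theorem D_eq (A : Set (List α)) (n : ℕ) : D A n = ⋂₀ (F A n) := by
  ext t
  simp only [D, F, Set.mem_ofPred_eq, Set.mem_sInter, Set.forall_mem_image]

theorem F_anti (A : Set (List α)) (n : ℕ) : F A (n + 1) ⊆ F A n := by
  apply Set.image_mono
  rw [Function.iterate_succ_apply']
  exact step_subset _

theorem stops_of_eq {A : Set (List α)} (hA : A.Nonempty)
    (hs : SuffixConvex A) (n : ℕ) (h : F A (n + 1) = F A n) :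
    StopsAt A (n + 1) := by
  intro u hu
  rw [(C_eq hA hs (n + 1)).2] at hu
  by_contra hne
  have hD : D A (n + 1) = D A n := by rw [D_eq, D_eq, h]
  rw [hD] at hu
  exact hu.1.2 u [] (by simp) hne hu.2 (nil_mem_B n)

theorem part_suffix (A : Set (List α)) (hA : A.Nonempty)
    (hs : SuffixConvex A) (hfin : (rightQuotients A).Finite) :
    ∃ n ≤ (rightQuotients A).ncard, StopsAt A n := by
  by_contra hcon
  push Not at hcon
  have hsub : ∀ n, F A n ⊆ rightQuotients A := by
    intro n x hx
    obtain ⟨c, -, rfl⟩ := hx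
    exact ⟨c, rfl⟩
  have hne : ∀ n, (F A n).Nonempty := fun n => (iter_nonempty hA n).image _
  have key : ∀ n, n ≤ (rightQuotients A).ncard →
      (F A n).ncard + n ≤ (rightQuotients A).ncard := by
    intro n
    induction n with
    | zero => intro _; simpa using Set.ncard_le_ncard (hsub 0) hfin
    | succ n ih =>
        intro hn
        have h1 := ih (by omega)
        have h2 : F A (n + 1) ⊂ F A n := by
          refine (F_anti A n).ssubset_of_ne ?_
          intro he
          exact hcon (n + 1) hn (stops_of_eq hA hs n he)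
        have h3 := Set.ncard_lt_ncard h2 (hfin.subset (hsub n))
        omega
  have h1 := key _ le_rfl
  have h2 : 0 < (F A (rightQuotients A).ncard).ncard := by
    rw [Set.ncard_pos (hfin.subset (hsub _))]
    exact hne _
  omega

/-- A language accepted by a finite automaton has finitely many right quotients. -/
theorem rightQuotients_finite {A : Set (List α)}
    (h : ∃ (σ : Type) (_ : Fintype σ) (M : DFA α σ), ∀ w : List α, w ∈ M.accepts ↔ w ∈ A) :
    (rightQuotients A).Finite := by
  obtain ⟨σ, hσ, M, hM⟩ := h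
  have : rightQuotients A ⊆ (fun S : Set σ => {u : List α | M.eval u ∈ S}) '' Set.univ := by
    rintro x ⟨c, rfl⟩
    refine ⟨{q | M.evalFrom q c ∈ M.accept}, trivial, ?_⟩
    ext u
    have h1 := hM (u ++ c)
    rw [DFA.mem_accepts, DFA.eval, DFA.evalFrom_of_append] at h1
    exact h1
  exact (Set.toFinite _).subset this

end suffix

section more

variable {α : Type}

theorem part_comm (A : Set (List α)) (hA : A.Nonempty)
    (h : ∀ w w' : List α, w.Perm w' → (w ∈ A ↔ w' ∈ A)) : ∃ n ≤ 1, StopsAt A n := by
  refine part_central A hA (fun s => ⟨1, le_rfl, fun y z => h _ _ ?_⟩)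
  rw [← List.append_assoc, ← List.append_assoc]
  exact List.Perm.append_right z List.perm_append_comm

theorem part_group (A : Set (List α)) (hA : A.Nonempty)
    (h : ∃ (σ : Type) (_ : Fintype σ) (M : DFA α σ),
      (∀ a : α, Function.Injective (fun q => M.step q a)) ∧ ∀ w : List α, w ∈ M.accepts ↔ w ∈ A) :
    ∃ n ≤ 1, StopsAt A n := by
  classical
  obtain ⟨σ, hσ, M, hinj, hM⟩ := h
  have hinj' : ∀ s : List α, Function.Injective (fun q => M.evalFrom q s) := by
    intro s
    induction s using List.reverseRecOn with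
    | nil => intro a b hab; simpa using hab
    | append_singleton s a ih =>
        intro q r hqr
        simp only [DFA.evalFrom_append_singleton] at hqr
        exact ih (hinj a hqr)
  refine part_central A hA (fun s => ?_)
  set e : Equiv.Perm σ := Equiv.ofBijective (fun q => M.evalFrom q s)
    (Finite.injective_iff_bijective.mp (hinj' s)) with he
  have hpow : ∀ n q, M.evalFrom q (wpow s n) = (e ^ n) q := by
    intro n
    induction n with
    | zero => intro q; simp [wpow]
    | succ n ih =>
        intro q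
        rw [wpow, DFA.evalFrom_of_append, ih, pow_succ, Equiv.Perm.mul_apply]
        rfl
  refine ⟨orderOf e, orderOf_pos e, fun y z => ?_⟩
  have h1 : ∀ q, M.evalFrom q (wpow s (orderOf e)) = q := by
    intro q
    rw [hpow, pow_orderOf_eq_one]
    rfl
  rw [← hM, ← hM, DFA.mem_accepts, DFA.mem_accepts]
  simp only [DFA.eval, DFA.evalFrom_of_append, h1]

theorem part_one (A : Set (List α)) (hA : A.Nonempty)
    (h : ∀ c ∈ A, ∀ c' ∈ A, ∀ u : List α, u ++ c ∈ A → u ++ c' ∈ A) : ∃ n ≤ 1, StopsAt A n := by
  refine ⟨1, le_rfl, ?_⟩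
  intro s hs
  simp only [Function.iterate_one] at hs
  by_contra hne
  obtain ⟨c, hc⟩ := step_nonempty hA
  have h1 := hs c hc
  exact h1.2 ⟨s, c, hne, fun x hx => h c hc.1 x hx s h1.1, hc.1, rfl⟩

theorem shift {A : Set (List α)} {m b : ℕ} (h : ∃ n ≤ b, StopsAt (step^[m] A) n) :
    ∃ n ≤ m + b, StopsAt A n := by
  obtain ⟨n, hn, h⟩ := h
  refine ⟨m + n, by omega, ?_⟩
  unfold StopsAt at h ⊢
  rw [add_comm m n, Function.iterate_add_apply]
  exact h

end more

/-- Termination of Brzozowski's star removal procedure for several classes. `C_m = step^[m] A` is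
the `m`-th tail (`C_0 = A`); in each item a hypothesis on one tail `C_m` bounds the number of steps. -/
theorem result {α : Type} [Fintype α] (A : Set (List α)) (hA : A.Nonempty) (m : ℕ) :
    -- polynomial growth of degree `d`
    (∀ K d : ℕ, (∀ n : ℕ, {w ∈ step^[m] A | w.length ≤ n}.ncard ≤ K * (n + 1) ^ d) →
      ∃ n ≤ m + d, StopsAt A n) ∧
    -- every word has a power that is central for the language
    ((∀ s : List α, ∃ N, 1 ≤ N ∧ ∀ y z : List α,
      (wpow s N ++ (y ++ z) ∈ step^[m] A ↔ y ++ (wpow s N ++ z) ∈ step^[m] A)) →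
      ∃ n ≤ m + 1, StopsAt A n) ∧
    -- commutative languages
    ((∀ w w' : List α, w.Perm w' → (w ∈ step^[m] A ↔ w' ∈ step^[m] A)) →
      ∃ n ≤ m + 1, StopsAt A n) ∧
    -- group languages
    ((∃ (σ : Type) (_ : Fintype σ) (M : DFA α σ),
      (∀ a : α, Function.Injective (fun q => M.step q a)) ∧
      ∀ w : List α, w ∈ M.accepts ↔ w ∈ step^[m] A) → ∃ n ≤ m + 1, StopsAt A n) ∧
    -- all words of the language have the same right quotient
    ((∀ c ∈ step^[m] A, ∀ c' ∈ step^[m] A, ∀ u : List α,
      u ++ c ∈ step^[m] A → u ++ c' ∈ step^[m] A) → ∃ n ≤ m + 1, StopsAt A n) ∧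
    -- suffix-convex regular languages (suffix-closed languages, left ideals, suffix-free languages)
    (SuffixConvex (step^[m] A) →
      (∃ (σ : Type) (_ : Fintype σ) (M : DFA α σ), ∀ w : List α, w ∈ M.accepts ↔ w ∈ step^[m] A) →
      ∃ n ≤ m + (rightQuotients (step^[m] A)).ncard, StopsAt A n) := by
  have hC := iter_nonempty hA m
  exact ⟨fun K d h => shift (part_growth _ hC K d h), fun h => shift (part_central _ hC h),
    fun h => shift (part_comm _ hC h), fun h => shift (part_group _ hC h),
    fun h => shift (part_one _ hC h),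
    fun h1 h2 => shift (part_suffix _ hC h1 (rightQuotients_finite h2))⟩

end Pool.Agent.Results.MP_a69800_lc.Classes
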